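import Pool.Agent.P.MP_80f86c_co.Poly.Twist

/-!
The polynomial gap for triangles: if `F` has treewidth at least three, then there are `F`-free
graphs with `m` edges and `m ^ (1 + ε)` triangles.
-/

namespace Pool.Agent.P.MP_80f86c_co.Poly

open SimpleGraph

/-- the thin triangle of groups generated by three involutions -/
noncomputable def thin (N : ℕ) : Thin (G1 ℤˣ N) where
  A l := ((QuotientGroup.mk' (K1 ℤˣ N)).comp (gen l)).range
  B k := Bs N k
  le := by
    rintro l k h _ ⟨a, rfl⟩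
    exact ⟨gen l a, gen_mem_Hs h a, rfl⟩
  x l := QuotientGroup.mk' (K1 ℤˣ N) (gen l (-1))
  mem_A := by
    intro l u
    constructor
    · rintro ⟨a, rfl⟩
      rcases Int.units_eq_one_or a with rfl | rfl
      · exact Or.inl (map_one _)
      · exact Or.inr rfl
    · rintro (rfl | rfl)
      · exact one_mem _
      · exact ⟨-1, rfl⟩
  π l := QuotientGroup.lift (K1 ℤˣ N) (proj l) fun _ hu => proj_eq_one_of_mem_K0 l hu.1
  π_self l := proj_gen_self l _
  π_B := by
    rintro k _ ⟨_, ⟨u, rfl⟩, rfl⟩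
    exact proj_ret k u

theorem thin_acyc (N : ℕ) : (thin N).Acyc N := by
  intro n κ y hn3 hn hκ hy hyn
  have hu : ∀ i, ∃ u : U ℤˣ, i < n →
      u ∈ Hs (κ i) ∧ QuotientGroup.mk' (K1 ℤˣ N) u = (y i)⁻¹ * y (i + 1) := by
    intro i
    by_cases hi : i < n
    · obtain ⟨u, h1, h2⟩ := hy i hi
      exact ⟨u, fun _ => ⟨h1, h2⟩⟩
    · exact ⟨1, fun h => absurd h hi⟩
  choose u hu using hu
  let x : ℕ → U ℤˣ := fun i => Nat.rec 1 (fun i p => p * u i) i
  have hx : ∀ i, x (i + 1) = x i * u i := fun _ => rfl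
  have hxy : ∀ i, i ≤ n → QuotientGroup.mk' (K1 ℤˣ N) (x i) = (y 0)⁻¹ * y i := by
    intro i hi
    induction i with
    | zero => simp [x]
    | succ i ih => rw [hx, map_mul, ih (by omega), (hu i (by omega)).2]; group
  obtain ⟨i, a, b, hi, hab⟩ := acyclic (A := ℤˣ) hn3 hn κ x hκ
    (fun i hi => by rw [hx, inv_mul_cancel_left]; exact (hu i hi).1) rfl (by
      rw [← QuotientGroup.eq_one_iff]
      have := hxy n le_rfl
      rw [hyn, inv_mul_cancel] at this
      exact this)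
  have h1 : QuotientGroup.mk' (K1 ℤˣ N) (x (i + 1) * gen (third (κ i) (κ (i + 1))) a) =
      QuotientGroup.mk' (K1 ℤˣ N) (x (i + 2) * gen (third (κ (i + 1)) (κ (i + 2))) b) :=
    QuotientGroup.eq.2 hab
  rw [map_mul _ (x (i + 1)), map_mul _ (x (i + 2)), hxy (i + 1) (by omega), hxy (i + 2) (by omega),
    mul_assoc, mul_assoc] at h1
  have h2 := mul_left_cancel h1
  refine ⟨i, hi, _, ⟨a, rfl⟩, _, inv_mem ⟨b, rfl⟩, ?_⟩
  simp only [MonoidHom.comp_apply]
  rw [inv_mul_eq_iff_eq_mul, ← mul_assoc, h2, mul_inv_cancel_right]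

lemma exists_quad (p : ℕ) [hp : Fact p.Prime] (h2 : 2 < p) :
    Nonempty (Quad (GaloisField p 2)) := by
  classical
  have := Fintype.ofFinite (GaloisField p 2)
  have hc : Fintype.card (GaloisField p 2) = p ^ 2 := by
    rw [← Nat.card_eq_fintype_card]; exact GaloisField.card p 2 (by norm_num)
  have hx : ∃ x : GaloisField p 2, x ^ p ≠ x := by
    by_contra h
    push Not at h
    have h1 : (Polynomial.X ^ p - Polynomial.X : Polynomial (GaloisField p 2)) ≠ 0 :=
      FiniteField.X_pow_card_sub_X_ne_zero _ hp.out.one_lt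
    have h3 := Polynomial.card_le_degree_of_subset_roots
      (p := (Polynomial.X ^ p - Polynomial.X : Polynomial (GaloisField p 2))) (Z := Finset.univ)
      (fun x _ => (Polynomial.mem_roots h1).2 (by simp [h x]))
    rw [FiniteField.X_pow_card_sub_X_natDegree_eq _ hp.out.one_lt, Finset.card_univ, hc] at h3
    nlinarith
  obtain ⟨x, hx⟩ := hx
  refine ⟨⟨frobenius _ p, x ^ p - x, ?_, sub_ne_zero.2 hx, ?_⟩⟩
  · have h1 := FiniteField.pow_card x
    rw [hc, sq, pow_mul] at h1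
    rw [map_sub, frobenius_def, frobenius_def, h1, neg_sub]
  · intro h
    have h1 : ((2 : ℕ) : GaloisField p 2) = 0 := by exact_mod_cast h
    rw [CharP.cast_eq_zero_iff _ p] at h1
    have := Nat.le_of_dvd (by norm_num) h1
    omega

/-- thick locally chordal graphs of polynomial size -/
theorem exists_ach_poly (N : ℕ) : ∃ D, 0 < D ∧ ∀ p : ℕ, p.Prime → 2 < p →
    ∃ e k, 0 < e ∧ e ≤ 9 * p ^ D ∧ p * e ≤ 27 * k ∧ Ach (Loc N) 3 e k := by
  let M := 2 * (N + 1) + 3
  refine ⟨2 * Nat.card (G1 ℤˣ M), by have := Nat.card_pos (α := G1 ℤˣ M); omega, fun p hp h2 => ?_⟩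
  have := Fact.mk hp
  have := Fintype.ofFinite (G1 ℤˣ M)
  obtain ⟨Q⟩ := exists_quad p h2
  have hac := (thin M).thick_acyc Q (thin_acyc M)
  obtain ⟨a, ha, hinj⟩ := (thin M).thick_many Q (fun i : Fin p => ((i : ℕ) : GaloisField p 2) * Q.δ)
    (fun i => by rw [map_mul, map_natCast, Q.cδ, mul_neg])
    (fun i j hij => Fin.ext (CharP.natCast_injOn_Iio (GaloisField p 2) p i.2 j.2
      (mul_right_cancel₀ Q.δ0 hij)))
  refine ⟨ec ((thin M).thick Q).graph, kc 3 ((thin M).thick Q).graph, Tri.ec_pos, ?_, ?_, _,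
    inferInstance, _, hac.loc, rfl, le_rfl⟩
  · refine Tri.ec_le.trans (Nat.mul_le_mul_left _ (card_units_le.trans ?_))
    rw [GaloisField.card p 2 (by norm_num), ← pow_mul]
  · have := mul_ec_le_kc _ (Tri.le_commonNeighbors a ha hinj)
    simpa using this

open Filter in
theorem mex_poly {W : Type} [Fintype W] {F : SimpleGraph W} (hF : ¬ TreewidthLeTwo F) :
    ∃ ε : ℝ, 0 < ε ∧ ∀ᶠ m : ℕ in atTop, (m : ℝ) ^ (1 + ε) ≤ (mex 3 m F : ℝ) := by
  classical
  obtain ⟨D, hD, h⟩ := exists_ach_poly (Fintype.card W)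
  refine ⟨((2 * D : ℕ) : ℝ)⁻¹, by positivity, ?_⟩
  filter_upwards [eventually_ge_atTop (9 * (2 * 52488) ^ D)] with m hm
  have hex : ∃ r, m < 9 * (2 * (r + 1)) ^ D := by
    refine ⟨m, ?_⟩
    have := Nat.le_self_pow hD.ne' (2 * (m + 1))
    omega
  have h1 := Nat.find_spec hex
  set r := Nat.find hex with hr
  have hr0 : 52488 ≤ r := by
    by_contra hlt
    have : (2 * (r + 1)) ^ D ≤ (2 * 52488) ^ D := Nat.pow_le_pow_left (by omega) D
    omega
  have h2 : 9 * (2 * r) ^ D ≤ m := by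
    have := Nat.find_min hex (m := r - 1) (by omega)
    rw [show r - 1 + 1 = r by omega] at this
    omega
  obtain ⟨p, hp, hp1, hp2⟩ := Nat.exists_prime_lt_and_le_two_mul r (by omega)
  obtain ⟨e, k, he, he2, hk, hach⟩ := h p hp (by omega)
  have hem : e ≤ m := by
    have : p ^ D ≤ (2 * r) ^ D := Nat.pow_le_pow_left hp2 D
    omega
  have h3 := (hach.div (closed_loc _) (by norm_num) m).le_mex (by norm_num) (free_of_loc hF)
  have h4 : m ≤ 2 * e * (m / e) := by
    have h3 : 1 ≤ m / e := (Nat.one_le_div_iff he).2 hem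
    have h4 := Nat.div_add_mod m e
    have h5 := Nat.mod_lt m he
    nlinarith
  have h5 : m * p ≤ 54 * mex 3 m F := by
    calc m * p ≤ 2 * e * (m / e) * p := Nat.mul_le_mul_right _ h4
      _ = 2 * (m / e * (p * e)) := by ring
      _ ≤ 2 * (m / e * (27 * k)) := by gcongr
      _ = 54 * (m / e * k) := by ring
      _ ≤ _ := by gcongr
  have h6 : m * 54 ^ (2 * D) ≤ p ^ (2 * D) := by
    calc m * 54 ^ (2 * D) ≤ 9 ^ D * (2 * p) ^ D * 54 ^ (2 * D) := by
          refine Nat.mul_le_mul_right _ (h1.le.trans (Nat.mul_le_mul ?_ ?_))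
          · exact Nat.le_self_pow hD.ne' 9
          · exact Nat.pow_le_pow_left (by omega) D
      _ = (52488 * p) ^ D := by
          rw [pow_mul, ← mul_pow, ← mul_pow]
          congr 1
          ring
      _ ≤ (p * p) ^ D := Nat.pow_le_pow_left (Nat.mul_le_mul_right _ (by omega)) D
      _ = p ^ (2 * D) := by rw [pow_mul, sq]
  have h7 : (m : ℝ) ≤ ((p : ℝ) / 54) ^ (2 * D) := by
    rw [div_pow, le_div_iff₀ (by positivity)]
    exact_mod_cast h6
  have hm0 : (0 : ℝ) < m := by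
    have : 0 < m := by omega
    exact_mod_cast this
  have h8 : (m : ℝ) ^ (((2 * D : ℕ) : ℝ)⁻¹) ≤ (p : ℝ) / 54 := by
    refine (Real.rpow_le_rpow hm0.le h7 (by positivity)).trans ?_
    rw [Real.pow_rpow_inv_natCast (by positivity) (by omega)]
  have h9 : (m : ℝ) * p ≤ 54 * mex 3 m F := by exact_mod_cast h5
  rw [Real.rpow_add hm0, Real.rpow_one]
  nlinarith

end Pool.Agent.P.MP_80f86c_co.Poly
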