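import Mathlib

/-!
The few graphs `F` whose exclusion forbids triangles in all large graphs.
-/

namespace Pool.Agent.P.MP_80f86c_co

open SimpleGraph

/-- `F` is contained in a triangle plus isolated vertices, or in the disjoint union of a path with
two edges, a single edge and isolated vertices. -/
def Tiny {W : Type} (F : SimpleGraph W) : Prop :=
  ∃ k : ℕ, F ⊑ ((⊤ : SimpleGraph (Fin 3)) ⊕g (⊥ : SimpleGraph (Fin k))) ∨
    F ⊑ ((pathGraph 3 ⊕g pathGraph 2) ⊕g (⊥ : SimpleGraph (Fin k)))

end Pool.Agent.P.MP_80f86c_co
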