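import Pool.Agent.P.MP_80f86c_co.Poly.Gap
import Pool.Agent.P.MP_80f86c_co.Poly.TinyDefs

/-!
Triangles: `mex` is eventually zero for tiny graphs and at least linear for all others.
-/

namespace Pool.Agent.P.MP_80f86c_co.Poly

open SimpleGraph

lemma sum_bot_contained {X V : Type} [Fintype X] [Fintype V] {H : SimpleGraph X} {G : SimpleGraph V}
    (f : X → V) (hf : Function.Injective f) (hadj : ∀ x y, H.Adj x y → G.Adj (f x) (f y)) {k : ℕ}
    (hk : Fintype.card X + k ≤ Fintype.card V) : H ⊕g (⊥ : SimpleGraph (Fin k)) ⊑ G := by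
  classical
  have h1 : Fintype.card (Fin k) ≤ ((Finset.univ.image f)ᶜ : Finset V).card := by
    rw [Finset.card_compl, Finset.card_image_of_injective _ hf]
    simp only [Fintype.card_fin, Finset.card_univ]
    omega
  obtain ⟨g, hg⟩ := Function.Embedding.exists_of_card_le_finset h1
  have h2 : ∀ x i, f x ≠ g i := fun x i h => by
    have := hg ⟨i, rfl⟩
    simp only [Finset.coe_compl, Finset.coe_image, Finset.coe_univ, Set.image_univ,
      Set.mem_compl_iff, Set.mem_range, not_exists] at this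
    exact this x h
  refine ⟨⟨⟨Sum.elim f g, ?_⟩, hf.sumElim g.injective h2⟩⟩
  rintro (x | x) (y | y) h
  · exact hadj x y (by simpa using h)
  all_goals simp at h

lemma contained_sum_bot {W X : Type} [Fintype W] {F : SimpleGraph W} {H : SimpleGraph X}
    (ψ : W → X) (S : Set W) (hinj : Set.InjOn ψ S)
    (hadj : ∀ u v, F.Adj u v → u ∈ S ∧ H.Adj (ψ u) (ψ v)) :
    F ⊑ H ⊕g (⊥ : SimpleGraph (Fin (Fintype.card W))) := by
  classical
  refine ⟨⟨⟨fun w => if w ∈ S then Sum.inl (ψ w) else Sum.inr (Fintype.equivFin W w), ?_⟩, ?_⟩⟩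
  · intro u v h
    simpa [(hadj u v h).1, (hadj v u h.symm).1] using (hadj u v h).2
  · intro u v h
    by_cases hu : u ∈ S <;> by_cases hv : v ∈ S
    · exact hinj hu hv (by simpa [hu, hv] using h)
    · simp [hu, hv] at h
    · simp [hu, hv] at h
    · simpa [hu, hv] using h

lemma path_copy {V : Type} [Fintype V] {G : SimpleGraph V} {u a v d e : V} (h1 : G.Adj u a)
    (h2 : G.Adj a v) (h3 : G.Adj d e) (n1 : u ≠ v) (n2 : d ≠ u) (n3 : d ≠ a) (n4 : d ≠ v)
    (n5 : e ≠ u) (n6 : e ≠ a) (n7 : e ≠ v) {k : ℕ} (hk : 5 + k ≤ Fintype.card V) :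
    (pathGraph 3 ⊕g pathGraph 2) ⊕g (⊥ : SimpleGraph (Fin k)) ⊑ G := by
  have m1 := h1.ne
  have m2 := h2.ne
  have m3 := h3.ne
  refine sum_bot_contained (Sum.elim ![u, a, v] ![d, e]) ?_ ?_ (by simpa using hk)
  · rintro (x | x) (y | y) h <;> fin_cases x <;> fin_cases y <;> simp_all [eq_comm]
  · rintro (x | x) (y | y) h <;> fin_cases x <;> fin_cases y <;>
      simp_all [pathGraph_adj, G.adj_comm]

lemma tiny_contained {W V : Type} [Fintype V] {F : SimpleGraph W} {G : SimpleGraph V} {k : ℕ}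
    (hF : F ⊑ ((⊤ : SimpleGraph (Fin 3)) ⊕g (⊥ : SimpleGraph (Fin k))) ∨
      F ⊑ ((pathGraph 3 ⊕g pathGraph 2) ⊕g (⊥ : SimpleGraph (Fin k))))
    (hk : 5 + k ≤ Fintype.card V) (he : 10 ≤ ec G) {a b c : V} (h1 : G.Adj a b) (h2 : G.Adj a c)
    (h3 : G.Adj b c) : F ⊑ G := by
  classical
  rcases hF with hF | hF
  · refine hF.trans (sum_bot_contained ![a, b, c] ?_ ?_ (by simp; omega))
    · have m1 := h1.ne
      have m2 := h2.ne
      have m3 := h3.ne
      intro x y h
      fin_cases x <;> fin_cases y <;> simp_all [eq_comm]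
    · intro x y h
      fin_cases x <;> fin_cases y <;> simp_all [G.adj_comm]
  refine hF.trans ?_
  have key : ∀ a b c : V, G.Adj a b → G.Adj a c → G.Adj b c → 4 ≤ G.degree a →
      (pathGraph 3 ⊕g pathGraph 2) ⊕g (⊥ : SimpleGraph (Fin k)) ⊑ G := by
    intro a b c h1 h2 h3 hd
    have h4 : 1 < ((G.neighborFinset a) \ {b, c}).card := by
      have := Finset.le_card_sdiff ({b, c} : Finset V) (G.neighborFinset a)
      have h5 : ({b, c} : Finset V).card ≤ 2 := Finset.card_le_two
      rw [card_neighborFinset_eq_degree] at this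
      omega
    obtain ⟨u, hu, v, hv, huv⟩ := Finset.one_lt_card.1 h4
    simp only [Finset.mem_sdiff, mem_neighborFinset, Finset.mem_insert, Finset.mem_singleton,
      not_or] at hu hv
    exact path_copy hu.1.symm hv.1 h3 huv (Ne.symm hu.2.1) h1.ne' (Ne.symm hv.2.1) (Ne.symm hu.2.2)
      h2.ne' (Ne.symm hv.2.2) hk
  by_cases hd : ∃ d e, G.Adj d e ∧ d ≠ a ∧ d ≠ b ∧ d ≠ c ∧ e ≠ a ∧ e ≠ b ∧ e ≠ c
  · obtain ⟨d, e, h, n1, n2, n3, n4, n5, n6⟩ := hd
    exact path_copy h1.symm h2 h h3.ne n2 n1 n3 n5 n4 n6 hk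
  have hsub : G.edgeFinset ⊆ G.incidenceFinset a ∪ G.incidenceFinset b ∪ G.incidenceFinset c := by
    intro x hx
    induction x using Sym2.ind with
    | h d e =>
      have hde : G.Adj d e := by simpa using hx
      simp only [Finset.mem_union, mem_incidenceFinset, mk'_mem_incidenceSet_iff, hde, true_and]
      by_contra hn
      push Not at hn
      exact hd ⟨d, e, hde, hn.1.1.1.symm, hn.1.2.1.symm, hn.2.1.symm, hn.1.1.2.symm,
        hn.1.2.2.symm, hn.2.2.symm⟩
  have h5 := (Finset.card_le_card hsub).trans ((Finset.card_union_le _ _).trans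
    (Nat.add_le_add_right (Finset.card_union_le _ _) _))
  simp only [card_incidenceFinset_eq_degree] at h5
  have h6 : ec G = G.edgeFinset.card := by
    unfold ec
    rw [← coe_edgeFinset, Set.ncard_coe_finset]
  by_cases ha : 4 ≤ G.degree a
  · exact key a b c h1 h2 h3 ha
  by_cases hb : 4 ≤ G.degree b
  · exact key b a c h1.symm h3 h2 hb
  exact key c a b h2.symm h3.symm h1 (by omega)

open Filter in
theorem mex_tiny {W : Type} {F : SimpleGraph W} (hF : Tiny F) :
    ∀ᶠ m : ℕ in atTop, mex 3 m F = 0 := by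
  classical
  obtain ⟨k, hk⟩ := hF
  filter_upwards [eventually_ge_atTop ((5 + k) ^ 2)] with m hm
  have : (mex 3 m F : ℝ) ≤ 0 := by
    refine mex_le le_rfl fun n G hG hm' => ?_
    by_contra h
    have h1 : kc 3 G ≠ 0 := fun h0 => h (by simp [h0])
    obtain ⟨t, ht⟩ := Set.nonempty_of_ncard_ne_zero h1
    obtain ⟨a, b, c, h2, h3, h4, -⟩ := is3Clique_iff.1 ht
    have h6 : ec G = G.edgeFinset.card := by
      unfold ec
      rw [← coe_edgeFinset, Set.ncard_coe_finset]
    have h7 := G.card_edgeFinset_le_card_choose_two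
    have h8 : (Fintype.card (Fin n)).choose 2 ≤ (Fintype.card (Fin n)) ^ 2 := Nat.choose_le_pow _ _
    have h9 : 5 ^ 2 ≤ (5 + k) ^ 2 := Nat.pow_le_pow_left (by omega) 2
    refine hG (tiny_contained hk ?_ (by omega) h2 h3 h4)
    exact (pow_le_pow_iff_left₀ (Nat.zero_le _) (Nat.zero_le _) two_ne_zero).1 (by omega)
  exact_mod_cast le_antisymm this (Nat.cast_nonneg _)

lemma lower_of_sunflower {W V : Type} [Finite V] {F : SimpleGraph W} {Ω : SimpleGraph V} {m : ℕ}
    (hF : F.Free Ω) (a b c : Fin m → V) (h1 : ∀ i, Ω.Adj (a i) (b i)) (h2 : ∀ i, Ω.Adj (a i) (c i))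
    (h3 : ∀ i, Ω.Adj (b i) (c i)) (hc : Function.Injective c) (ha : ∀ i j, c i ≠ a j)
    (hb : ∀ i j, c i ≠ b j) : m / 3 ≤ mex 3 m F := by
  classical
  let ι : Fin (m / 3) → Fin m := Fin.castLE (Nat.div_le_self _ _)
  let E₀ : Finset (Sym2 V) := Finset.univ.biUnion fun i : Fin (m / 3) =>
    {s(a (ι i), b (ι i)), s(a (ι i), c (ι i)), s(b (ι i), c (ι i))}
  have e1 : (E₀ : Set (Sym2 V)) ⊆ Ω.edgeSet := by
    intro x hx
    simp only [E₀, Finset.coe_biUnion, Finset.coe_univ, Set.mem_univ, Set.iUnion_true,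
      Set.mem_iUnion, Finset.coe_insert, Finset.coe_singleton, Set.mem_insert_iff,
      Set.mem_singleton_iff] at hx
    obtain ⟨i, rfl | rfl | rfl⟩ := hx
    exacts [h1 _, h2 _, h3 _]
  have e2 : (E₀ : Set (Sym2 V)).ncard ≤ m := by
    rw [Set.ncard_coe_finset]
    refine (Finset.card_biUnion_le_card_mul _ _ 3 fun i _ => Finset.card_le_three).trans ?_
    simp only [Finset.card_univ, Fintype.card_fin]
    omega
  have e3 : m ≤ Ω.edgeSet.ncard := by
    have := Set.ncard_le_ncard_of_injOn (s := (Set.univ : Set (Fin m))) (t := Ω.edgeSet)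
      (fun i => s(a i, c i)) (fun i _ => h2 i) (fun i _ j _ h => by
        rcases Sym2.eq_iff.1 h with h | h
        · exact hc h.2
        · exact absurd h.2 (ha i j)) (Set.toFinite _)
    simpa using this
  obtain ⟨E, hE1, hE2, hE3⟩ := Set.exists_subsuperset_card_eq e1 e2 e3
  have hle : fromEdgeSet E ≤ Ω := by
    rw [← fromEdgeSet_edgeSet Ω]; exact fromEdgeSet_mono hE2
  have hed : (fromEdgeSet E).edgeSet = E := by
    rw [edgeSet_fromEdgeSet]
    exact Disjoint.sdiff_eq_left (Set.disjoint_left.2 fun x hx hd =>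
      Ω.not_isDiag_of_mem_edgeSet (hE2 hx) hd)
  refine le_trans ?_ (le_mex (by norm_num) (fromEdgeSet E)
    (fun h => hF (h.trans (IsContained.of_le hle))) (by rw [ec, hed, hE3]))
  have hm : ∀ i x, x ∈ ({s(a (ι i), b (ι i)), s(a (ι i), c (ι i)), s(b (ι i), c (ι i))} :
      Finset (Sym2 V)) → x ∈ (fromEdgeSet E).edgeSet := fun i x hx => by
    rw [hed]
    exact hE1 (Finset.mem_coe.2 (Finset.mem_biUnion.2 ⟨i, Finset.mem_univ _, hx⟩))
  have := Set.ncard_le_ncard_of_injOn (s := (Set.univ : Set (Fin (m / 3))))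
    (t := (fromEdgeSet E).cliqueSet 3) (fun i => {a (ι i), b (ι i), c (ι i)})
    (fun i _ => is3Clique_triple_iff.2 ⟨hm i s(a (ι i), b (ι i)) (by simp),
      hm i s(a (ι i), c (ι i)) (by simp), hm i s(b (ι i), c (ι i)) (by simp)⟩)
    (fun i _ j _ h => by
      have h4 : c (ι i) ∈ ({a (ι j), b (ι j), c (ι j)} : Finset V) := by
        have h' : ({a (ι i), b (ι i), c (ι i)} : Finset V) = {a (ι j), b (ι j), c (ι j)} := h
        rw [← h']; simp
      simp only [Finset.mem_insert, Finset.mem_singleton, ha, hb, false_or] at h4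
      exact Fin.castLE_injective _ (hc h4)) (Set.toFinite _)
  simpa using this

/-- disjoint triangles -/
def gD (m : ℕ) : SimpleGraph (Fin m × Fin 3) where
  Adj x y := x.1 = y.1 ∧ x.2 ≠ y.2
  symm := ⟨fun _ _ h => ⟨h.1.symm, h.2.symm⟩⟩
  loopless := ⟨fun _ h => h.2 rfl⟩

/-- friendship graphs -/
def gF (m : ℕ) : SimpleGraph (Option (Fin m × Bool)) where
  Adj x y := x ≠ y ∧ ∀ p q, x = some p → y = some q → p.1 = q.1
  symm := ⟨fun _ _ h => ⟨h.1.symm, fun p q h1 h2 => (h.2 q p h2 h1).symm⟩⟩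
  loopless := ⟨fun _ h => h.1 rfl⟩

/-- books -/
def gB (m : ℕ) : SimpleGraph (Bool ⊕ Fin m) where
  Adj x y := x ≠ y ∧ (x.isLeft ∨ y.isLeft)
  symm := ⟨fun _ _ h => ⟨h.1.symm, h.2.symm⟩⟩
  loopless := ⟨fun _ h => h.1 rfl⟩

lemma tiny_of {W : Type} [Fintype W] {F : SimpleGraph W} {m : ℕ} (hD : F ⊑ gD m) (hF : F ⊑ gF m)
    (hB : F ⊑ gB m) : Tiny F := by
  classical
  obtain ⟨f⟩ := hD
  obtain ⟨g⟩ := hF
  obtain ⟨h⟩ := hB
  have fa : ∀ {u v}, F.Adj u v → (f u).1 = (f v).1 ∧ (f u).2 ≠ (f v).2 := fun h => f.toHom.map_adj h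
  have fi : ∀ {u v}, (f u).1 = (f v).1 → (f u).2 = (f v).2 → u = v :=
    fun h1 h2 => f.injective (Prod.ext h1 h2)
  refine ⟨Fintype.card W, ?_⟩
  by_cases h1 : ∀ u v u' v', F.Adj u v → F.Adj u' v' → (f u).1 = (f u').1
  · refine Or.inl (contained_sum_bot (fun w => (f w).2) F.support ?_ ?_)
    · rintro u ⟨u', hu⟩ v ⟨v', hv⟩ huv
      exact fi (h1 _ _ _ _ hu hv) huv
    · exact fun u v huv => ⟨⟨v, huv⟩, (fa huv).2⟩
  right
  -- two cover vertices in different components
  have hcov : ∀ u v, F.Adj u v → ∃ x y, F.Adj x y ∧ (h x).isLeft ∧ (f x).1 = (f u).1 := by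
    intro u v huv
    rcases (h.toHom.map_adj huv).2 with h2 | h2
    · exact ⟨u, v, huv, h2, rfl⟩
    · exact ⟨v, u, huv.symm, h2, (fa huv).1.symm⟩
  push Not at h1
  obtain ⟨u, v, u', v', huv, huv', hne⟩ := h1
  obtain ⟨x, x', hx, hxl, hx1⟩ := hcov u v huv
  obtain ⟨y, y', hy, hyl, hy1⟩ := hcov u' v' huv'
  have hxy : (f x).1 ≠ (f y).1 := by rw [hx1, hy1]; exact hne
  have hleft : ∀ w, (h w).isLeft → w = x ∨ w = y := by
    intro w hw
    have n1 : h x ≠ h y := fun e => hxy (by rw [h.injective e])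
    by_contra hn
    push Not at hn
    have n2 : h w ≠ h x := fun e => hn.1 (h.injective e)
    have n3 : h w ≠ h y := fun e => hn.2 (h.injective e)
    obtain ⟨p, hp⟩ := Sum.isLeft_iff.1 hw
    obtain ⟨q, hq⟩ := Sum.isLeft_iff.1 hxl
    obtain ⟨r, hr⟩ := Sum.isLeft_iff.1 hyl
    rw [hq, hr] at n1
    rw [hp, hq] at n2
    rw [hp, hr] at n3
    revert n1 n2 n3
    cases p <;> cases q <;> cases r <;> simp
  have hedge : ∀ p q, F.Adj p q → p = x ∨ p = y ∨ q = x ∨ q = y := by
    intro p q hpq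
    rcases (h.toHom.map_adj hpq).2 with h2 | h2
    · rcases hleft _ h2 with h3 | h3 <;> simp [h3]
    · rcases hleft _ h2 with h3 | h3 <;> simp [h3]
  have hpath : ∀ z p q, F.Adj z p → F.Adj z q → p ≠ q → g z = none ∨ g p = none ∨ g q = none := by
    intro z p q h1 h2 hpq
    by_contra hn
    push Not at hn
    obtain ⟨a, ha⟩ := Option.ne_none_iff_exists'.1 hn.1
    obtain ⟨b, hb⟩ := Option.ne_none_iff_exists'.1 hn.2.1
    obtain ⟨c, hc⟩ := Option.ne_none_iff_exists'.1 hn.2.2
    have e1 := (g.toHom.map_adj h1).2 a b ha hb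
    have e2 := (g.toHom.map_adj h2).2 a c ha hc
    have n1 : a ≠ b := fun e => h1.ne (g.injective (ha.trans (e ▸ hb.symm)))
    have n2 : a ≠ c := fun e => h2.ne (g.injective (ha.trans (e ▸ hc.symm)))
    have n3 : b ≠ c := fun e => hpq (g.injective (hb.trans (e ▸ hc.symm)))
    obtain ⟨a1, a2⟩ := a
    obtain ⟨b1, b2⟩ := b
    obtain ⟨c1, c2⟩ := c
    simp only at e1 e2
    subst e1 e2
    revert n1 n2 n3
    cases a2 <;> cases b2 <;> cases c2 <;> simp
  have main : ∀ x x' y y', F.Adj x x' → F.Adj y y' → (f x).1 ≠ (f y).1 →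
      (∀ p q, F.Adj p q → p = x ∨ p = y ∨ q = x ∨ q = y) → (∀ q, F.Adj y q → q = y') →
      F ⊑ ((pathGraph 3 ⊕g pathGraph 2) ⊕g (⊥ : SimpleGraph (Fin (Fintype.card W)))) := by
    intro x x' y y' hx hy hxy hedge huniq
    have n1 : x ≠ y := fun e => hxy (by rw [e])
    have n2 : x ≠ y' := fun e => hxy (by rw [e, (fa hy).1])
    have n3 : ∀ q, F.Adj x q → q ≠ y ∧ q ≠ y' := fun q hq =>
      ⟨fun e => hxy (by rw [(fa hq).1, e]), fun e => hxy (by rw [(fa hq).1, e, (fa hy).1])⟩
    have n4 := hy.ne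
    have n5 := hx.ne
    refine contained_sum_bot (fun w => if w = y then Sum.inr 0 else if w = y' then Sum.inr 1 else
      if w = x then Sum.inl 1 else if w = x' then Sum.inl 0 else Sum.inl 2) F.support ?_ ?_
    · have hs : ∀ w ∈ F.support, w ≠ y → w ≠ y' → w ≠ x → F.Adj x w := by
        rintro w ⟨w', hw⟩ a1 a2 a3
        rcases hedge _ _ hw with e | e | e | e
        · exact absurd e a3
        · exact absurd e a1
        · exact e ▸ hw.symm
        · exact absurd (huniq w (e ▸ hw.symm)) a2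
      have hl : ∀ p ∈ F.support, ∀ q ∈ F.support, p ≠ y → p ≠ y' → p ≠ x → p ≠ x' →
          q ≠ y → q ≠ y' → q ≠ x → q ≠ x' → p = q := by
        intro p hp q hq a1 a2 a3 a4 c1 c2 c3 c4
        have b1 := fa (hs p hp a1 a2 a3)
        have b2 := fa (hs q hq c1 c2 c3)
        have b3 := fa hx
        have b4 : (f p).2 ≠ (f x').2 := fun e => a4 (fi (b1.1.symm.trans b3.1) e)
        have b5 : (f q).2 ≠ (f x').2 := fun e => c4 (fi (b2.1.symm.trans b3.1) e)
        refine fi (b1.1.symm.trans b2.1) ?_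
        have := b1.2
        have := b2.2
        have := b3.2
        omega
      intro p hp q hq hpq
      simp only at hpq
      split_ifs at hpq <;> first
        | exact absurd hpq (by decide)
        | (apply hl p hp q hq <;> assumption)
        | (subst_vars; rfl)
    · intro p q hpq
      refine ⟨⟨q, hpq⟩, ?_⟩
      have n6 := hpq.ne
      rcases hedge _ _ hpq with e | e | e | e
      · subst e
        have := n3 q hpq
        by_cases e2 : q = x'
        · subst e2
          simp [n1, n2, this.1, this.2, n6.symm, pathGraph_adj]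
        · simp [n1, n2, this.1, this.2, e2, n6.symm, pathGraph_adj]
      · subst e
        obtain rfl := huniq q hpq
        simp [n6.symm, pathGraph_adj]
      · subst e
        have := n3 p hpq.symm
        by_cases e2 : p = x'
        · subst e2
          simp [n1, n2, this.1, this.2, n6, pathGraph_adj]
        · simp [n1, n2, this.1, this.2, e2, n6, pathGraph_adj]
      · subst e
        obtain rfl := huniq p hpq.symm
        simp [n6, pathGraph_adj]
  by_cases hu : ∀ q, F.Adj y q → q = y'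
  · exact main x x' y y' hx hy hxy hedge hu
  refine main y y' x x' hy hx hxy.symm (fun p q hpq => by have := hedge p q hpq; tauto) ?_
  push Not at hu
  obtain ⟨q, hq, hq'⟩ := hu
  intro r hr
  by_contra hr'
  have c1 : ∃ z, g z = none ∧ (f z).1 = (f y).1 := by
    rcases hpath y q y' hq hy hq' with e | e | e
    exacts [⟨_, e, rfl⟩, ⟨_, e, (fa hq).1.symm⟩, ⟨_, e, (fa hy).1.symm⟩]
  have c2 : ∃ z, g z = none ∧ (f z).1 = (f x).1 := by
    rcases hpath x r x' hr hx hr' with e | e | e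
    exacts [⟨_, e, rfl⟩, ⟨_, e, (fa hr).1.symm⟩, ⟨_, e, (fa hx).1.symm⟩]
  obtain ⟨z, e1, e2⟩ := c1
  obtain ⟨z', e3, e4⟩ := c2
  obtain rfl := g.injective (e1.trans e3.symm)
  exact hxy (e4.symm.trans e2)

lemma third_le_mex {W : Type} [Fintype W] {F : SimpleGraph W} (hF : ¬ Tiny F) (m : ℕ) :
    m / 3 ≤ mex 3 m F := by
  by_cases hD : F ⊑ gD m
  · by_cases hG : F ⊑ gF m
    · exact lower_of_sunflower (fun hB => hF (tiny_of hD hG hB)) (fun _ => Sum.inl false)
        (fun _ => Sum.inl true) Sum.inr (fun _ => by simp [gB]) (fun _ => by simp [gB])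
        (fun _ => by simp [gB]) Sum.inr_injective (by simp) (by simp)
    · exact lower_of_sunflower hG (fun _ => none) (fun i => some (i, false))
        (fun i => some (i, true)) (fun _ => by simp [gF]) (fun _ => by simp [gF])
        (fun _ => by simp [gF]) (fun i j h => by simpa using h) (by simp) (by simp)
  · exact lower_of_sunflower hD (fun i => (i, 0)) (fun i => (i, 1)) (fun i => (i, 2))
      (fun _ => by simp [gD]) (fun _ => by simp [gD]) (fun _ => by simp [gD])
      (fun i j h => by simpa using h) (by simp) (by simp)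

open Asymptotics Filter in
theorem linear_isBigO_mex {W : Type} [Fintype W] {F : SimpleGraph W} (hF : ¬ Tiny F) :
    (fun m : ℕ => (m : ℝ)) =O[atTop] (fun m : ℕ => (mex 3 m F : ℝ)) := by
  refine IsBigO.of_bound 5 ?_
  filter_upwards [eventually_ge_atTop 3] with m hm
  have h1 := third_le_mex hF m
  have h2 : m ≤ 5 * mex 3 m F := by omega
  simp only [Real.norm_natCast]
  exact_mod_cast h2

end Pool.Agent.P.MP_80f86c_co.Poly
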