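import Pool.Agent.P.MP_80f86c_co.Poly.Walk

/-!
Thickening a triangle of groups generated by three involutions inside a group algebra over a
finite field with a conjugation.
-/

namespace Pool.Agent.P.MP_80f86c_co.Poly

open MonoidAlgebra

/-- a triangle of groups whose edge groups have order two -/
structure Thin (W : Type) [Group W] extends Tri W where
  x : Fin 3 → W
  mem_A : ∀ l u, u ∈ A l ↔ u = 1 ∨ u = x l
  π : Fin 3 → W →* ℤˣ
  π_self : ∀ l, π l (x l) = -1
  π_B : ∀ k, ∀ u ∈ B k, π k u = 1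

/-- a conjugation of a field of characteristic not two, with an imaginary element -/
structure Quad (L : Type) [Field L] where
  c : L →+* L
  δ : L
  cδ : c δ = -δ
  δ0 : δ ≠ 0
  two : (2 : L) ≠ 0

variable {W L : Type} [Group W] [Field L]

lemma Quad.add_ne (Q : Quad L) {η p q : L} (hη : η ≠ 0) (hp : Q.c p = η * p)
    (hq : Q.c q = -η * q) (h : p ≠ 0 ∨ q ≠ 0) : p + q ≠ 0 := by
  intro h0
  have h1 := congrArg Q.c h0
  rw [map_add, map_zero, hp, hq] at h1
  have h2 : η * (2 * p) = 0 := by linear_combination h1 + η * h0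
  have h3 : p = 0 := by simpa [hη, Q.two] using h2
  have h4 : q = 0 := by simpa [h3] using h0
  rcases h with h | h
  · exact h h3
  · exact h h4

namespace Thin

variable (T : Thin W)

lemma x_mem (l : Fin 3) : T.x l ∈ T.A l := (T.mem_A _ _).2 (Or.inr rfl)

lemma π_ne {l m : Fin 3} (h : m ≠ l) : T.π l (T.x m) = 1 := T.π_B _ _ (T.le _ _ h (T.x_mem m))

lemma x_ne (l : Fin 3) : T.x l ≠ 1 := by
  intro h
  have := T.π_self l
  rw [h, map_one] at this
  exact absurd this (by decide)

lemma x_mul (l : Fin 3) : T.x l * T.x l = 1 := by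
  rcases (T.mem_A l _).1 (mul_mem (T.x_mem l) (T.x_mem l)) with h | h
  · exact h
  · exact absurd (mul_eq_left.1 h) (T.x_ne l)

lemma x_inv (l : Fin 3) : (T.x l)⁻¹ = T.x l := inv_eq_of_mul_eq_one_right (T.x_mul l)

variable (L) in
/-- the sign character -/
def sg : W →* L :=
  (Int.castRingHom L).toMonoidHom.comp ((Units.coeHom ℤ).comp (T.π 0 * T.π 1 * T.π 2))

lemma sg_apply (w : W) : T.sg L w = (((T.π 0 w * T.π 1 w * T.π 2 w : ℤˣ) : ℤ) : L) := rfl

lemma sg_x (l : Fin 3) : T.sg L (T.x l) = -1 := by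
  rw [sg_apply]
  have h0 := T.π_self l
  fin_cases l
  · simp only [Fin.zero_eta] at h0 ⊢
    rw [h0, T.π_ne (show (0 : Fin 3) ≠ 1 by decide), T.π_ne (show (0 : Fin 3) ≠ 2 by decide)]
    simp
  · simp only [Fin.mk_one] at h0 ⊢
    rw [h0, T.π_ne (show (1 : Fin 3) ≠ 0 by decide), T.π_ne (show (1 : Fin 3) ≠ 2 by decide)]
    simp
  · simp only [Fin.reduceFinMk] at h0 ⊢
    rw [h0, T.π_ne (show (2 : Fin 3) ≠ 0 by decide), T.π_ne (show (2 : Fin 3) ≠ 1 by decide)]
    simp

lemma sg_sq (w : W) : T.sg L w * T.sg L w = 1 := by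
  rw [sg_apply, ← Int.cast_mul, ← Units.val_mul, Int.units_mul_self]
  simp

lemma sg_ne (w : W) : T.sg L w ≠ 0 := left_ne_zero_of_mul_eq_one (T.sg_sq w)

lemma sg_inv (w : W) : T.sg L w⁻¹ = T.sg L w := by
  have h1 : T.sg L w⁻¹ * T.sg L w = 1 := by rw [← map_mul, inv_mul_cancel, map_one]
  exact mul_right_cancel₀ (T.sg_ne w) (h1.trans (T.sg_sq w).symm)

end Thin

variable [Fintype W]

lemma mul_co (f g : MonoidAlgebra L W) (w : W) :
    (f * g).coeff w = ∑ h, f.coeff h * g.coeff (h⁻¹ * w) := by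
  rw [coeff_mul_apply_left, Finsupp.sum_fintype]
  simp

instance [Finite L] : Finite (MonoidAlgebra L W) := by
  classical
  have := Fintype.ofFinite L
  exact Finite.of_equiv _ coeffEquiv.symm

lemma card_units_le [Finite L] :
    Nat.card (MonoidAlgebra L W)ˣ ≤ Nat.card L ^ Nat.card W := by
  rw [← Nat.card_fun]
  refine Nat.card_le_card_of_injective (fun u w => (u : MonoidAlgebra L W).coeff w) ?_
  intro u v h
  exact Units.ext (coeff_injective (Finsupp.ext fun w => congrFun h w))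

namespace Thin

variable (T : Thin W) (Q : Quad L)

/-- the adjugate -/
noncomputable def σ (f : MonoidAlgebra L W) : MonoidAlgebra L W :=
  ofCoeff (Finsupp.equivFunOnFinite.symm fun w => T.sg L w * f.coeff w⁻¹)

lemma σ_co (f : MonoidAlgebra L W) (w : W) : (T.σ f).coeff w = T.sg L w * f.coeff w⁻¹ := rfl

lemma σ_mul (f g : MonoidAlgebra L W) : T.σ (f * g) = T.σ g * T.σ f := by
  refine coeff_injective (Finsupp.ext fun w => ?_)
  rw [σ_co, mul_co, mul_co, Finset.mul_sum]
  refine (Fintype.sum_equiv (Equiv.mulLeft w⁻¹) _ _ fun k => ?_).symm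
  simp only [σ_co, Equiv.coe_mulLeft, mul_inv_rev, inv_inv, map_mul, sg_inv,
    mul_inv_cancel_right]
  linear_combination (T.sg L w * g.coeff k⁻¹ * f.coeff (w⁻¹ * k)) * T.sg_sq (L := L) k

/-- elements fixed by the twisted conjugation -/
def Real (f : MonoidAlgebra L W) : Prop := ∀ w, Q.c (f.coeff w) = T.sg L w * f.coeff w

lemma real_mul {f g : MonoidAlgebra L W} (hf : T.Real Q f) (hg : T.Real Q g) :
    T.Real Q (f * g) := by
  intro w
  rw [mul_co, map_sum, Finset.mul_sum]
  refine Finset.sum_congr rfl fun h _ => ?_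
  rw [map_mul, hf, hg, map_mul, sg_inv]
  linear_combination (T.sg L w * f.coeff h * g.coeff (h⁻¹ * w)) * T.sg_sq (L := L) h

omit [Fintype W] in
lemma one_co (w : W) (h : w ≠ 1) : (1 : MonoidAlgebra L W).coeff w = 0 := by
  rw [one_def, coeff_single, Finsupp.single_eq_of_ne h]

omit [Fintype W] in
lemma real_one : T.Real Q 1 := by
  intro w
  by_cases h : w = 1
  · subst h; simp
  · simp [one_co w h]

lemma supp_mul {f g : MonoidAlgebra L W} {w : W} (h : (f * g).coeff w ≠ 0) :
    ∃ k, f.coeff k ≠ 0 ∧ g.coeff (k⁻¹ * w) ≠ 0 := by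
  rw [mul_co] at h
  obtain ⟨k, _, hk⟩ := Finset.exists_ne_zero_of_sum_ne_zero h
  exact ⟨k, left_ne_zero_of_mul hk, right_ne_zero_of_mul hk⟩

/-- real elements supported in `S` with scalar norm -/
def Good (S : Subgroup W) (f : MonoidAlgebra L W) : Prop :=
  T.Real Q f ∧ (∀ w, f.coeff w ≠ 0 → w ∈ S) ∧ ∃ r : L, f * T.σ f = r • 1

lemma good_mul {S : Subgroup W} {f g : MonoidAlgebra L W} (hf : T.Good Q S f)
    (hg : T.Good Q S g) : T.Good Q S (f * g) := by
  obtain ⟨f1, f2, r, f3⟩ := hf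
  obtain ⟨g1, g2, r', g3⟩ := hg
  refine ⟨T.real_mul Q f1 g1, fun w hw => ?_, r' * r, ?_⟩
  · obtain ⟨k, h1, h2⟩ := supp_mul hw
    simpa using mul_mem (f2 _ h1) (g2 _ h2)
  · rw [σ_mul, mul_assoc, ← mul_assoc g, g3, smul_mul_assoc, one_mul, mul_smul_comm, f3, smul_smul]

lemma good_one (S : Subgroup W) : T.Good Q S 1 := by
  refine ⟨T.real_one Q, fun w hw => ?_, 1, ?_⟩
  · by_contra h
    exact hw (one_co w fun h1 => h (h1 ▸ one_mem S))
  · rw [one_mul, one_smul]
    refine coeff_injective (Finsupp.ext fun w => ?_)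
    rw [σ_co]
    by_cases h : w = 1
    · subst h; simp
    · rw [one_co w h, one_co _ (inv_ne_one.2 h), mul_zero]

/-- the thick group attached to a subgroup -/
def Gd [Finite L] (S : Subgroup W) : Subgroup (MonoidAlgebra L W)ˣ where
  carrier := {u | T.Good Q S u}
  mul_mem' := fun ha hb => T.good_mul Q ha hb
  one_mem' := T.good_one Q S
  inv_mem' := by
    intro u hu
    have h1 : ∀ n : ℕ, T.Good Q S ((u ^ n : (MonoidAlgebra L W)ˣ) : MonoidAlgebra L W) := by
      intro n
      induction n with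
      | zero => exact T.good_one Q S
      | succ n ih => rw [pow_succ]; exact T.good_mul Q ih hu
    have h2 : u⁻¹ = u ^ (orderOf u - 1) := by
      rw [inv_eq_iff_mul_eq_one, ← pow_succ', Nat.sub_add_cancel (orderOf_pos u), pow_orderOf_eq_one]
    rw [h2]
    exact h1 _

variable [Finite L]

lemma mem_Gd {S : Subgroup W} {u : (MonoidAlgebra L W)ˣ} : u ∈ T.Gd Q S ↔ T.Good Q S u := Iff.rfl

/-- the thick triangle of groups -/
def thick : Tri (MonoidAlgebra L W)ˣ where
  A l := T.Gd Q (T.A l)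
  B k := T.Gd Q (T.B k)
  le l k h _ hu := ⟨hu.1, fun w hw => T.le l k h (hu.2.1 w hw), hu.2.2⟩

/-- elements of the edge algebras -/
noncomputable def el (l : Fin 3) (α β : L) : MonoidAlgebra L W := single 1 α + single (T.x l) β

omit [Fintype W] [Finite L] in
lemma mul_el (f : MonoidAlgebra L W) (l : Fin 3) (α β : L) (w : W) :
    (f * T.el l α β).coeff w = f.coeff w * α + f.coeff (w * T.x l) * β := by
  simp [el, mul_add, T.x_inv]

omit [Fintype W] [Finite L] in
lemma el_one (l : Fin 3) (α β : L) : (T.el l α β).coeff 1 = α := by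
  simp [el, coeff_single, Finsupp.single_eq_of_ne (T.x_ne l).symm]

omit [Fintype W] [Finite L] in
lemma el_x (l : Fin 3) (α β : L) : (T.el l α β).coeff (T.x l) = β := by
  simp [el, coeff_single, Finsupp.single_eq_of_ne (T.x_ne l)]

omit [Fintype W] [Finite L] in
lemma el_ne (l : Fin 3) (α β : L) {w : W} (h1 : w ≠ 1) (h2 : w ≠ T.x l) :
    (T.el l α β).coeff w = 0 := by
  simp [el, coeff_single, Finsupp.single_eq_of_ne h1, Finsupp.single_eq_of_ne h2]

omit [Fintype W] [Finite L] in
lemma el_mul (l : Fin 3) (α β : L) : T.el l α β * T.el l α (-β) = (α * α - β * β) • 1 := by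
  simp only [el, mul_add, add_mul, single_mul_single, one_mul, mul_one, T.x_mul, one_def,
    smul_single, smul_eq_mul]
  have h1 : single (T.x l) (β * α) + single (T.x l) (α * -β) = (0 : MonoidAlgebra L W) := by
    rw [← single_add, show β * α + α * -β = 0 by ring, single_zero]
  have h2 : single 1 (α * α) + single 1 (β * -β) =
      (single 1 (α * α - β * β) : MonoidAlgebra L W) := by
    rw [← single_add, show α * α + β * -β = α * α - β * β by ring]
  rw [← h2, add_assoc, ← add_assoc (single (T.x l) (β * α)), h1, zero_add]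

lemma exists_el (l : Fin 3) {α β : L} (hα : Q.c α = α) (hβ : Q.c β = -β) (h : α ≠ 0 ∨ β ≠ 0) :
    ∃ v ∈ T.Gd Q (T.A l), (v : MonoidAlgebra L W) = T.el l α β := by
  have h1 : α * α - β * β ≠ 0 := by
    have e1 := Q.add_ne one_ne_zero (p := α) (q := β) (by simpa using hα) (by simpa using hβ) h
    have e2 := Q.add_ne one_ne_zero (p := α) (q := -β) (by simpa using hα) (by simp [hβ])
      (by simpa using h)
    have := mul_ne_zero e1 e2
    intro h0
    exact this (by linear_combination h0)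
  have h2 := T.el_mul l α (-β)
  rw [neg_neg, neg_mul_neg] at h2
  refine ⟨⟨T.el l α β, (α * α - β * β)⁻¹ • T.el l α (-β), ?_, ?_⟩, ⟨?_, ?_, α * α - β * β, ?_⟩, rfl⟩
  · rw [mul_smul_comm, el_mul, smul_smul, inv_mul_cancel₀ h1, one_smul]
  · rw [smul_mul_assoc, h2, smul_smul, inv_mul_cancel₀ h1, one_smul]
  · intro w
    by_cases w1 : w = 1
    · subst w1; simp [el_one, hα]
    · by_cases w2 : w = T.x l
      · subst w2; simp [el_x, hβ, sg_x]
      · simp [T.el_ne l α β w1 w2]
  · intro w hw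
    by_contra hn
    rw [T.mem_A, not_or] at hn
    exact hw (T.el_ne l α β hn.1 hn.2)
  · change T.el l α β * T.σ (T.el l α β) = _
    rw [← T.el_mul l α β]
    congr 1
    refine coeff_injective (Finsupp.ext fun w => ?_)
    rw [σ_co]
    by_cases w1 : w = 1
    · subst w1; simp [el_one]
    · by_cases w2 : w = T.x l
      · subst w2; simp [el_x, sg_x, x_inv]
      · rw [T.el_ne l α _ w1 w2, T.el_ne l α β (inv_ne_one.2 w1), mul_zero]
        intro h3
        exact w2 (by rw [← inv_inv w, h3, x_inv])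

omit [Finite L] in
lemma rank_one (two : (2 : L) ≠ 0) {l m : Fin 3} (hlm : l ≠ m) {u : MonoidAlgebra L W} {r : L}
    (hu : u * T.σ u = r • 1)
    (hs : ∀ w, u.coeff w ≠ 0 → w = 1 ∨ w = T.x l ∨ w = T.x m ∨ w = T.x l * T.x m) :
    u.coeff 1 * u.coeff (T.x l * T.x m) = u.coeff (T.x l) * u.coeff (T.x m) := by
  classical
  have p1 := T.π_self l
  have p2 := T.π_self m
  have p3 := T.π_ne hlm
  have p4 := T.π_ne hlm.symm
  have key : ∀ {a b : W}, T.π l a ≠ T.π l b ∨ T.π m a ≠ T.π m b → a ≠ b := by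
    rintro a b (h | h) rfl <;> exact h rfl
  have n1 : (1 : W) ≠ T.x l := key (by simp [p1])
  have n2 : (1 : W) ≠ T.x m := key (by simp [p2])
  have n3 : (1 : W) ≠ T.x l * T.x m := key (by simp [p1, p4])
  have n4 : T.x l ≠ T.x m := key (by simp [p1, p4])
  have n5 : T.x l ≠ T.x l * T.x m := key (by simp [p2, p3])
  have n6 : T.x m ≠ T.x l * T.x m := key (by simp [p1, p4])
  have h1 := congrArg (fun f : MonoidAlgebra L W => f.coeff (T.x l * T.x m)) hu
  simp only [coeff_smul_apply, one_co _ n3.symm, smul_zero, mul_co] at h1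
  rw [← Finset.sum_subset (Finset.subset_univ {1, T.x l, T.x m, T.x l * T.x m})
    (fun w _ hw => by
      have : u.coeff w = 0 := by
        by_contra h
        exact hw (by simpa using hs w h)
      rw [this, zero_mul]),
    Finset.sum_insert (by simp [n1, n2, n3]), Finset.sum_insert (by simp [n4, n5]),
    Finset.sum_pair n6] at h1
  simp only [σ_co, inv_one, one_mul, map_mul, sg_x, mul_inv_rev, x_inv, ← mul_assoc, x_mul,
    mul_assoc (T.x m) (T.x l) (T.x l), mul_one, map_one] at h1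
  by_cases hc : T.x m * T.x l = T.x l * T.x m
  · have h2 : T.x m * T.x l * T.x m = T.x l := by rw [hc, mul_assoc, x_mul, mul_one]
    rw [h2, hc] at h1
    have h3 : 2 * (u.coeff 1 * u.coeff (T.x l * T.x m) - u.coeff (T.x l) * u.coeff (T.x m)) = 0 := by
      linear_combination h1
    exact sub_eq_zero.1 ((mul_eq_zero.1 h3).resolve_left two)
  · have h2 : u.coeff (T.x m * T.x l) = 0 := by
      by_contra h
      rcases hs _ h with h | h | h | h
      · exact key (by simp [p1, p4]) h
      · exact key (by simp [p2, p3]) h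
      · exact key (by simp [p1, p4]) h
      · exact hc h
    have h3 : u.coeff (T.x m * T.x l * T.x m) = 0 := by
      by_contra h
      rcases hs _ h with h | h | h | h
      · exact key (by simp [p1, p4]) h
      · refine hc ?_
        have := congrArg (· * T.x m) h
        simpa only [mul_assoc (T.x m * T.x l), x_mul, mul_one] using this
      · exact key (by simp [p1, p4]) h
      · exact key (by simp [p2, p3]) h
    rw [h2, h3] at h1
    linear_combination h1

omit [Fintype W] [Finite L] in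
lemma coeff_ne (u : (MonoidAlgebra L W)ˣ) : ∃ w, (u : MonoidAlgebra L W).coeff w ≠ 0 := by
  by_contra h
  push Not at h
  exact u.ne_zero (coeff_injective (Finsupp.ext h))

/-- a thick element with degenerate support is degenerate -/
lemma deg_of_supp {S : Subgroup W} {u : (MonoidAlgebra L W)ˣ} (hu : u ∈ T.Gd Q S) (k k' k'' : Fin 3)
    (hs : ∀ w, (u : MonoidAlgebra L W).coeff w ≠ 0 → T.Deg k k' k'' w) :
    (T.thick Q).Deg k k' k'' u := by
  unfold Tri.Deg at hs ⊢
  generalize third k k' = l at hs ⊢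
  generalize third k' k'' = m at hs ⊢
  obtain ⟨hr, -, r, hσ⟩ := hu
  by_cases hlm : l = m
  · subst hlm
    refine ⟨u, ⟨hr, fun w hw => ?_, r, hσ⟩, 1, one_mem _, (mul_one u).symm⟩
    obtain ⟨a, ha, b, hb, rfl⟩ := hs w hw
    exact mul_mem ha hb
  have hs' : ∀ w, (u : MonoidAlgebra L W).coeff w ≠ 0 →
      w = 1 ∨ w = T.x l ∨ w = T.x m ∨ w = T.x l * T.x m := by
    intro w hw
    obtain ⟨a, ha, b, hb, rfl⟩ := hs w hw
    rcases (T.mem_A _ _).1 ha with rfl | rfl <;> rcases (T.mem_A _ _).1 hb with rfl | rfl <;> simp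
  have h1 := T.rank_one Q.two hlm hσ hs'
  have r1 := hr 1
  have r2 := hr (T.x l)
  have r3 := hr (T.x m)
  have r4 := hr (T.x l * T.x m)
  simp only [map_one, map_mul, sg_x, one_mul, neg_mul, neg_neg] at r1 r2 r3 r4
  have key : ∃ α β : L, Q.c α = α ∧ Q.c β = -β ∧ (α ≠ 0 ∨ β ≠ 0) ∧
      (u : MonoidAlgebra L W).coeff (T.x m) * α + (u : MonoidAlgebra L W).coeff 1 * β = 0 ∧
      (u : MonoidAlgebra L W).coeff (T.x l * T.x m) * α +
        (u : MonoidAlgebra L W).coeff (T.x l) * β = 0 := by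
    by_cases h2 : (u : MonoidAlgebra L W).coeff 1 ≠ 0 ∨ (u : MonoidAlgebra L W).coeff (T.x m) ≠ 0
    · refine ⟨(u : MonoidAlgebra L W).coeff 1, -(u : MonoidAlgebra L W).coeff (T.x m), r1,
        by rw [map_neg, r3], by simpa using h2, by ring, by linear_combination h1⟩
    · push Not at h2
      refine ⟨(u : MonoidAlgebra L W).coeff (T.x l) * Q.δ,
        -((u : MonoidAlgebra L W).coeff (T.x l * T.x m) * Q.δ), by rw [map_mul, r2, Q.cδ]; ring,
        by rw [map_neg, map_mul, r4, Q.cδ]; ring, ?_, by simp [h2.1, h2.2], by ring⟩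
      obtain ⟨w, hw⟩ := coeff_ne u
      rcases hs' w hw with rfl | rfl | rfl | rfl
      · exact absurd h2.1 hw
      · exact Or.inl (mul_ne_zero hw Q.δ0)
      · exact absurd h2.2 hw
      · exact Or.inr (neg_ne_zero.2 (mul_ne_zero hw Q.δ0))
  obtain ⟨α, β, hα, hβ, hne, e1, e2⟩ := key
  obtain ⟨v, hv, hve⟩ := T.exists_el Q m hα hβ hne
  have hg : T.Good Q ⊤ (u * v : (MonoidAlgebra L W)ˣ) :=
    T.good_mul Q ⟨hr, fun _ _ => trivial, r, hσ⟩ ⟨hv.1, fun _ _ => trivial, hv.2.2⟩
  refine ⟨u * v, ⟨hg.1, fun w hw => ?_, hg.2.2⟩, v⁻¹, inv_mem hv, by group⟩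
  rw [Units.val_mul, hve, mul_el] at hw
  have hw' : w = 1 ∨ w = T.x l ∨ w = T.x m ∨ w = T.x l * T.x m := by
    by_cases h2 : (u : MonoidAlgebra L W).coeff w = 0
    · rw [h2, zero_mul, zero_add] at hw
      have h3 : w = w * T.x m * T.x m := by rw [mul_assoc, x_mul, mul_one]
      rcases hs' _ (left_ne_zero_of_mul hw) with h | h | h | h <;> rw [h] at h3 <;>
        simp [h3, x_mul, mul_assoc]
    · exact hs' w h2
  rw [T.mem_A]
  rcases hw' with rfl | rfl | rfl | rfl
  · exact Or.inl rfl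
  · exact Or.inr rfl
  · exact absurd (by rw [x_mul]; exact e1) hw
  · exact absurd (by rw [mul_assoc, x_mul, mul_one]; exact e2) hw

/-- coset paths in the thin group -/
def Path (κ : ℕ → Fin 3) (j : ℕ) (y : ℕ → W) : Prop :=
  y 0 = 1 ∧ ∀ i, i < j → (y i)⁻¹ * y (i + 1) ∈ T.B (κ i)

omit [Fintype W] in
lemma Path.snoc {T : Thin W} {κ : ℕ → Fin 3} {j : ℕ} {y : ℕ → W} (h : T.Path κ j y) {g : W}
    (hg : (y j)⁻¹ * g ∈ T.B (κ j)) : T.Path κ (j + 1) (fun i => if i ≤ j then y i else g) := by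
  refine ⟨by simpa using h.1, fun i hi => ?_⟩
  by_cases h1 : i = j
  · subst h1; simpa using hg
  · simpa [show i ≤ j by omega, show i + 1 ≤ j by omega] using h.2 i (by omega)

theorem thick_acyc {N : ℕ} (hT : T.Acyc (2 * N + 3)) : (T.thick Q).Acyc N := by
  classical
  intro n κ Y hn3 hnN hκ hY hYn
  by_contra hcon
  push Not at hcon
  let P : ℕ → (MonoidAlgebra L W)ˣ := fun j => (Y 0)⁻¹ * Y j
  have hP : ∀ j, P (j + 1) = P j * ((Y j)⁻¹ * Y (j + 1)) := fun j => by simp only [P]; group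
  have hreal : ∀ j, j ≤ n → T.Real Q (P j) := by
    intro j hj
    induction j with
    | zero => simpa [P] using T.real_one Q
    | succ j ih => rw [hP]; exact T.real_mul Q (ih (by omega)) (hY j (by omega)).1
  have hsupp : ∀ j, j ≤ n → ∀ h, (P j : MonoidAlgebra L W).coeff h ≠ 0 →
      ∃ y, T.Path κ j y ∧ y j = h := by
    intro j hj
    induction j with
    | zero =>
      intro h hh
      refine ⟨fun _ => 1, ⟨rfl, fun i hi => by omega⟩, ?_⟩
      by_contra h1
      exact hh (by simpa [P] using one_co h (Ne.symm h1))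
    | succ j ih =>
      intro h hh
      rw [hP, Units.val_mul] at hh
      obtain ⟨k, h1, h2⟩ := supp_mul hh
      obtain ⟨y, hy, rfl⟩ := ih (by omega) k h1
      exact ⟨_, hy.snoc ((hY j (by omega)).2.1 _ h2), by simp⟩
  have hmain : ∀ j, j + 2 ≤ n → ∃ y, T.Path κ (j + 1) y ∧
      (∀ i, i + 2 ≤ j + 1 → ¬ T.Deg (κ i) (κ (i + 1)) (κ (i + 2)) ((y (i + 1))⁻¹ * y (i + 2))) ∧
      (P (j + 1) : MonoidAlgebra L W).coeff (y (j + 1)) ≠ 0 := by
    intro j hj
    induction j with
    | zero =>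
      obtain ⟨w, hw⟩ := coeff_ne (P (0 + 1))
      obtain ⟨y, hy, rfl⟩ := hsupp _ (by omega) w hw
      exact ⟨y, hy, fun i hi => by omega, hw⟩
    | succ j ih =>
      obtain ⟨y, hy, hd, hne⟩ := ih (by omega)
      have hu := hY (j + 1) (by omega)
      obtain ⟨w, hw, hwd⟩ : ∃ w, (((Y (j + 1))⁻¹ * Y (j + 2) : (MonoidAlgebra L W)ˣ) :
          MonoidAlgebra L W).coeff w ≠ 0 ∧ ¬ T.Deg (κ j) (κ (j + 1)) (κ (j + 2)) w := by
        by_contra h
        push Not at h
        exact hcon j (by omega) (T.deg_of_supp Q hu _ _ _ h)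
      have hκ1 := hκ j (by omega)
      set u : MonoidAlgebra L W := (((Y (j + 1))⁻¹ * Y (j + 2) : (MonoidAlgebra L W)ˣ) :
        MonoidAlgebra L W) with hudef
      set t := T.x (third (κ j) (κ (j + 1))) with ht
      set g := y (j + 1) with hg
      have htt : t * t = 1 := T.x_mul _
      have htB : t ∈ T.B (κ (j + 1)) := T.le _ _ (third_ne_right hκ1) (T.x_mem _)
      have hwB : w ∈ T.B (κ (j + 1)) := hu.2.1 _ hw
      have form : ∀ w' ∈ T.B (κ (j + 1)), (P (j + 2) : MonoidAlgebra L W).coeff (g * w') =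
          (P (j + 1) : MonoidAlgebra L W).coeff g * u.coeff w' +
            (P (j + 1) : MonoidAlgebra L W).coeff (g * t) * u.coeff (t * w') := by
        intro w' hw'
        rw [hP (j + 1), Units.val_mul, mul_co, ← Finset.sum_subset (Finset.subset_univ {g, g * t}),
          Finset.sum_pair (fun h => T.x_ne _ (left_eq_mul.1 h))]
        · rw [inv_mul_cancel_left, mul_inv_rev, mul_assoc, inv_mul_cancel_left, T.x_inv]
        · intro h _ hh
          by_contra h0
          obtain ⟨y', hy', rfl⟩ := hsupp (j + 1) (by omega) h (left_ne_zero_of_mul h0)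
          have h1 : (y' (j + 1))⁻¹ * (g * w') ∈ T.B (κ (j + 1)) :=
            hu.2.1 _ (right_ne_zero_of_mul h0)
          have h2 : g⁻¹ * y' (j + 1) ∈ T.B (κ (j + 1)) := by
            have := mul_mem hw' (inv_mem h1)
            simpa [mul_assoc] using this
          have h3 := hT.last (n := j) (by omega) κ y y' (fun i hi => hκ i (by omega)) hy.2 hy'.2 hd
            (hy'.1.trans hy.1.symm) h2
          rcases (T.mem_A _ _).1 h3 with h4 | h4
          · exact hh (by simp [(inv_mul_eq_one.1 h4).symm, hg])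
          · exact hh (by simp [(inv_mul_eq_iff_eq_mul.1 h4), hg, ht])
      have a1 := Q.add_ne (T.sg_ne g) (hreal (j + 1) (by omega) g)
        (q := (P (j + 1) : MonoidAlgebra L W).coeff (g * t))
        (by rw [hreal (j + 1) (by omega) (g * t), map_mul, T.sg_x, mul_neg_one]) (Or.inl hne)
      have a2 := Q.add_ne (T.sg_ne w) (hu.1 w) (q := u.coeff (t * w))
        (by rw [hu.1 (t * w), map_mul, T.sg_x, neg_one_mul]) (Or.inl hw)
      have a3 : ∃ w' ∈ T.B (κ (j + 1)), ¬ T.Deg (κ j) (κ (j + 1)) (κ (j + 2)) w' ∧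
          (P (j + 2) : MonoidAlgebra L W).coeff (g * w') ≠ 0 := by
        by_cases h1 : (P (j + 2) : MonoidAlgebra L W).coeff (g * w) = 0
        · refine ⟨t * w, mul_mem htB hwB, ?_, fun h2 => mul_ne_zero a1 a2 ?_⟩
          · rintro ⟨a, ha, b, hb, hab⟩
            refine hwd ⟨t * a, mul_mem (T.x_mem _) ha, b, hb, ?_⟩
            rw [mul_assoc, ← hab, ← mul_assoc, htt, one_mul]
          · rw [form _ (mul_mem htB hwB), ← mul_assoc, htt, one_mul] at h2
            rw [form _ hwB] at h1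
            linear_combination h1 + h2
        · exact ⟨w, hwB, hwd, h1⟩
      obtain ⟨w', hw1, hw2, hw3⟩ := a3
      refine ⟨_, hy.snoc (g := g * w') (by simpa [hg] using hw1), fun i hi => ?_, by simpa using hw3⟩
      by_cases h1 : i = j
      · subst h1
        simpa [hg] using hw2
      · simpa [show i + 1 ≤ j + 1 by omega, show i + 2 ≤ j + 1 by omega] using hd i (by omega)
  obtain ⟨j, rfl⟩ : ∃ j, n = j + 2 := ⟨n - 2, by omega⟩
  obtain ⟨y, hy, hd, hne⟩ := hmain j le_rfl
  have h1 : P (j + 1) = ((Y (j + 1))⁻¹ * Y (j + 2))⁻¹ := by simp only [P, hYn]; group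
  have h2 : y (j + 1) ∈ T.B (κ (j + 1)) := by
    rw [h1] at hne
    exact (inv_mem (hY (j + 1) (by omega))).2.1 _ hne
  have h3 := hy.snoc (g := 1) (by simpa using h2)
  obtain ⟨i, hi, hdeg⟩ := hT (j + 2) κ _ hn3 (by omega) hκ h3.2 (by simpa using hy.1.symm)
  exact hd i (by omega)
    (by simpa [show i + 1 ≤ j + 1 by omega, show i + 2 ≤ j + 1 by omega] using hdeg)

/-- many cosets in an edge group -/
lemma thick_many {ι : Type} (β : ι → L) (hβ : ∀ i, Q.c (β i) = -β i) (hinj : Function.Injective β) :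
    ∃ a : Fin 3 → ι → (MonoidAlgebra L W)ˣ, (∀ l i, a l i ∈ (T.thick Q).A l) ∧
      ∀ l i j, (a l i)⁻¹ * a l j ∈ (T.thick Q).B l → i = j := by
  have h := fun l i => T.exists_el Q l (α := 1) (map_one _) (hβ i) (Or.inl one_ne_zero)
  choose a ha1 ha2 using h
  refine ⟨a, ha1, fun l i j hij => hinj ?_⟩
  set z := (a l i)⁻¹ * a l j with hz
  have h1 : (z : MonoidAlgebra L W) * T.el l 1 (β i) = T.el l 1 (β j) := by
    have c1 : T.el l 1 (β i) * T.el l 1 (β j) = T.el l 1 (β j) * T.el l 1 (β i) := by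
      simp only [el, mul_add, add_mul, single_mul_single, one_mul, mul_one, mul_comm (β i)]
      abel
    have c2 : a l i * a l j = a l j * a l i := Units.ext (by simpa [ha2] using c1)
    rw [← ha2, ← ha2, ← Units.val_mul, hz, mul_assoc, ← c2, inv_mul_cancel_left]
  have h2 : (z : MonoidAlgebra L W).coeff (T.x l) = 0 := by
    by_contra h
    have := T.π_B l _ (hij.2.1 _ h)
    rw [T.π_self] at this
    exact absurd this (by decide)
  have e1 := congrArg (fun f : MonoidAlgebra L W => f.coeff 1) h1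
  have e2 := congrArg (fun f : MonoidAlgebra L W => f.coeff (T.x l)) h1
  simp only [mul_el, one_mul, h2, el_one, el_x, x_mul, mul_one, zero_mul, add_zero,
    zero_add] at e1 e2
  rw [e1, one_mul] at e2
  exact e2

end Thin

end Pool.Agent.P.MP_80f86c_co.Poly
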