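import Pool.Agent.P.MP_80f86c_co.CosetGraph

/-!
Triangles of groups, their coset graphs, and uniqueness of coloured walks.
-/

namespace Pool.Agent.P.MP_80f86c_co.Poly

open SimpleGraph

/-- every closed lazy walk on at least three and at most `N` places has a chord of length two -/
def Short {V : Type} (R : V → V → Prop) (N : ℕ) : Prop :=
  ∀ (m : ℕ) (z : ℕ → V), 2 ≤ m → m + 1 ≤ N → (∀ i, i < m → R (z i) (z (i + 1))) →
    R (z m) (z 0) → ∃ i, i + 2 ≤ m ∧ R (z i) (z (i + 2))

theorem walk_unique {V C : Type} {R : V → V → Prop} (hr : ∀ v, R v v)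
    (hs : ∀ v w, R v w → R w v) (c : V → C) (hc : ∀ v w, R v w → c v = c w → v = w) {N : ℕ}
    (hN : Short R N) : ∀ (t n k : ℕ) (p q : ℕ → V) (φ : ℕ → ℕ), n + k ≤ t → n + k + 1 ≤ N →
    (∀ i, i < n → R (p i) (p (i + 1)) ∧ p i ≠ p (i + 1)) →
    (∀ i, i + 2 ≤ n → ¬ R (p i) (p (i + 2))) → (∀ j, j < k → R (q j) (q (j + 1))) →
    q 0 = p 0 → q k = p n → (∀ j, j < k → φ j < φ (j + 1)) → φ k ≤ n →
    (∀ j, j ≤ k → c (q j) = c (p (φ j))) → k = n ∧ ∀ j, j ≤ n → q j = p j := by
  intro t
  induction t with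
  | zero =>
    intro n k p q φ ht _ _ _ _ h0 _ _ _ _
    obtain rfl : n = 0 := by omega
    obtain rfl : k = 0 := by omega
    exact ⟨rfl, fun j hj => by obtain rfl : j = 0 := by omega
                               exact h0⟩
  | succ t ih =>
    intro n k p q φ ht hle hp hp2 hq h0 hk hφ hφk hcol
    have hφj : ∀ j, j ≤ k → j ≤ φ j := by
      intro j
      induction j with
      | zero => intro _; omega
      | succ j ihj => intro hj; have := hφ j (by omega); have := ihj (by omega); omega
    have hkn : k ≤ n := (hφj k le_rfl).trans hφk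
    by_cases hq2 : ∃ i, i + 2 ≤ k ∧ R (q i) (q (i + 2))
    · exfalso
      obtain ⟨i, hi, hR⟩ := hq2
      have := (ih n (k - 1) p (fun j => if j ≤ i then q j else q (j + 1))
        (fun j => if j ≤ i then φ j else φ (j + 1)) (by omega) (by omega) hp hp2 ?_ ?_ ?_ ?_ ?_
        ?_).1
      · omega
      · intro j hj
        by_cases h1 : j + 1 ≤ i
        · simp only [if_pos h1, if_pos (show j ≤ i by omega)]
          exact hq j (by omega)
        · by_cases h2 : j ≤ i
          · obtain rfl : j = i := by omega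
            simp only [if_neg h1, if_pos h2]
            exact hR
          · simp only [if_neg h1, if_neg h2]
            exact hq (j + 1) (by omega)
      · simpa using h0
      · simp only [if_neg (show ¬ k - 1 ≤ i by omega), show k - 1 + 1 = k by omega]
        exact hk
      · intro j hj
        by_cases h1 : j + 1 ≤ i
        · simp only [if_pos h1, if_pos (show j ≤ i by omega)]
          exact hφ j (by omega)
        · by_cases h2 : j ≤ i
          · simp only [if_neg h1, if_pos h2]
            exact (hφ j (by omega)).trans (hφ (j + 1) (by omega))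
          · simp only [if_neg h1, if_neg h2]
            exact hφ (j + 1) (by omega)
      · simp only [if_neg (show ¬ k - 1 ≤ i by omega), show k - 1 + 1 = k by omega]
        exact hφk
      · intro j hj
        by_cases h2 : j ≤ i
        · simp only [if_pos h2]
          exact hcol j (by omega)
        · simp only [if_neg h2]
          exact hcol (j + 1) (by omega)
    rcases Nat.eq_zero_or_pos n with rfl | hn
    · obtain rfl : k = 0 := by omega
      exact ⟨rfl, fun j hj => by obtain rfl : j = 0 := by omega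
                                 exact h0⟩
    rcases Nat.eq_zero_or_pos k with rfl | hk0
    · exfalso
      have h1 : p n = p 0 := hk.symm.trans h0
      by_cases hn1 : n = 1
      · subst hn1
        exact (hp 0 (by omega)).2 h1.symm
      · obtain ⟨i, hi, hR⟩ := hN n p (by omega) (by omega) (fun i hi => (hp i hi).1)
          (h1 ▸ hr _)
        exact hp2 i hi hR
    have h11 : R (q 1) (p 1) := by
      have hz : ∀ j, k ≤ j → (if j ≤ k then q (k - j) else p (j - k)) = p (j - k) := by
        intro j hj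
        by_cases h : j ≤ k
        · obtain rfl : j = k := by omega
          simp [h0]
        · rw [if_neg h]
      have key := hN (n + k) (fun j => if j ≤ k then q (k - j) else p (j - k))
        (by omega) hle ?_ ?_
      · obtain ⟨i, hi, hR⟩ := key
        by_cases h1 : i + 2 ≤ k
        · exfalso
          simp only [if_pos h1, if_pos (show i ≤ k by omega)] at hR
          refine hq2 ⟨k - (i + 2), by omega, ?_⟩
          rw [show k - (i + 2) + 2 = k - i by omega]
          exact hs _ _ hR
        · by_cases h2 : k ≤ i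
          · exfalso
            simp only [hz i h2, hz (i + 2) (by omega)] at hR
            refine hp2 (i - k) (by omega) ?_
            rw [show i - k + 2 = i + 2 - k by omega]
            exact hR
          · simp only [if_neg h1, if_pos (show i ≤ k by omega), show k - i = 1 by omega,
              show i + 2 - k = 1 by omega] at hR
            exact hR
      · intro i hi
        by_cases h1 : i + 1 ≤ k
        · simp only [if_pos h1, if_pos (show i ≤ k by omega)]
          have := hq (k - (i + 1)) (by omega)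
          rw [show k - (i + 1) + 1 = k - i by omega] at this
          exact hs _ _ this
        · simp only [hz i (by omega), hz (i + 1) (by omega)]
          rw [show i + 1 - k = i - k + 1 by omega]
          exact (hp (i - k) (by omega)).1
      · rw [hz (n + k) (by omega), if_pos (Nat.zero_le k), Nat.add_sub_cancel,
          Nat.sub_zero, hk]
        exact hr _
    by_cases hcc : c (q 1) = c (p 1)
    · have h1 := hc _ _ h11 hcc
      obtain ⟨h2, h3⟩ := ih (n - 1) (k - 1) (fun i => p (i + 1)) (fun j => q (j + 1))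
        (fun j => φ (j + 1) - 1) (by omega) (by omega) (fun i hi => hp (i + 1) (by omega))
        (fun i hi => hp2 (i + 1) (by omega)) (fun j hj => hq (j + 1) (by omega)) h1
        (by simp only [show k - 1 + 1 = k by omega, show n - 1 + 1 = n by omega]; exact hk)
        (fun j hj => by
          have := hφ (j + 1) (by omega); have := hφj (j + 1) (by omega); omega)
        (by simp only [show k - 1 + 1 = k by omega]; omega)
        (fun j hj => by
          have := hφj (j + 1) (by omega)
          simp only [show φ (j + 1) - 1 + 1 = φ (j + 1) by omega]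
          exact hcol (j + 1) (by omega))
      refine ⟨by omega, fun j hj => ?_⟩
      rcases j with _ | j
      · exact h0
      · exact h3 j (by omega)
    · exfalso
      have hφ1 : 2 ≤ φ 1 := by
        have h1 := hφj 1 hk0
        by_contra h
        have h2 : φ 1 = 1 := by omega
        exact hcc (by rw [hcol 1 hk0, h2])
      have hφj2 : ∀ j, 1 ≤ j → j ≤ k → 2 ≤ φ j := by
        intro j h1 hj
        induction j with
        | zero => omega
        | succ j ihj =>
          rcases Nat.eq_zero_or_pos j with rfl | hj0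
          · exact hφ1
          · have := hφ j (by omega); have := ihj hj0 (by omega); omega
      obtain ⟨h2, h3⟩ := ih (n - 1) k (fun i => p (i + 1)) (fun j => if j = 0 then p 1 else q j)
        (fun j => if j = 0 then 0 else φ j - 1) (by omega) (by omega)
        (fun i hi => hp (i + 1) (by omega)) (fun i hi => hp2 (i + 1) (by omega))
        (fun j hj => by
          rcases j with _ | j
          · simpa using hs _ _ h11
          · simpa using hq (j + 1) hj)
        (by simp)
        (by simp only [if_neg (show k ≠ 0 by omega), show n - 1 + 1 = n by omega]; exact hk)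
        (fun j hj => by
          rcases j with _ | j
          · simp only [if_true, zero_add, one_ne_zero, if_false]; omega
          · have := hφ (j + 1) hj
            have := hφj2 (j + 1) (by omega) (by omega)
            simp only [Nat.succ_ne_zero, if_false]; omega)
        (by simp only [if_neg (show k ≠ 0 by omega)]; omega)
        (fun j hj => by
          rcases j with _ | j
          · simp
          · have := hφj2 (j + 1) (by omega) hj
            simp only [Nat.succ_ne_zero, if_false, show φ (j + 1) - 1 + 1 = φ (j + 1) by omega]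
            exact hcol (j + 1) hj)
      have h4 : q 1 = p 2 := by simpa using h3 1 (by omega)
      refine hp2 0 (by omega) ?_
      have := hq 0 hk0
      rw [h0, zero_add, h4] at this
      exact this

theorem no_indCycle_of_short {V : Type} (G : SimpleGraph V) {R : V → V → Prop}
    (h1 : ∀ v w, G.Adj v w → R v w) (h2 : ∀ v w, R v w → v = w ∨ G.Adj v w) {N n : ℕ}
    (hN : Short R N) (h4 : 4 ≤ n) (hn : n + 1 ≤ N) : ¬ cycleGraph n ⊴ G := by
  rintro ⟨f⟩
  have hpos : 0 < n := by omega
  let v : ℕ → V := fun i => f ⟨i % n, Nat.mod_lt _ hpos⟩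
  obtain ⟨i, hi, hR⟩ := hN (n - 1) v (by omega) (by omega) (fun i hi => h1 _ _ <| by
      refine f.map_rel_iff.2 ((cycleGraph_adj_iff (by omega) _ _).2 (Or.inl ?_))
      simp only
      rw [Nat.mod_eq_of_lt (by omega), Nat.mod_eq_of_lt (by omega)])
    (h1 _ _ <| by
      refine f.map_rel_iff.2 ((cycleGraph_adj_iff (by omega) _ _).2 (Or.inr (Or.inr (Or.inr ?_))))
      simp only
      rw [Nat.zero_mod, Nat.mod_eq_of_lt (by omega)]
      omega)
  have e1 : i % n = i := Nat.mod_eq_of_lt (by omega)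
  have e2 : (i + 2) % n = i + 2 := Nat.mod_eq_of_lt (by omega)
  rcases h2 _ _ hR with h | h
  · have := congrArg Fin.val (f.injective h)
    simp only at this
    omega
  · have := (cycleGraph_adj_iff (by omega) _ _).1 (f.map_rel_iff.1 h)
    simp only at this
    omega

lemma third_comm (k l : Fin 3) : third k l = third l k := by simp [third, add_comm]

/-- a triangle of subgroups: edge groups `A l` and vertex groups `B k` -/
structure Tri (Γ : Type) [Group Γ] where
  A : Fin 3 → Subgroup Γ
  B : Fin 3 → Subgroup Γ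
  le : ∀ l k, l ≠ k → A l ≤ B k

namespace Tri

variable {Γ : Type} [Group Γ] (T : Tri Γ)

/-- degenerate steps -/
def Deg (k l m : Fin 3) (u : Γ) : Prop :=
  ∃ a ∈ T.A (third k l), ∃ b ∈ T.A (third l m), u = a * b

/-- no short coset cycles -/
def Acyc (N : ℕ) : Prop :=
  ∀ (n : ℕ) (κ : ℕ → Fin 3) (y : ℕ → Γ), 3 ≤ n → n ≤ N → (∀ i, i + 1 < n → κ i ≠ κ (i + 1)) →
    (∀ i, i < n → (y i)⁻¹ * y (i + 1) ∈ T.B (κ i)) → y n = y 0 →
    ∃ i, i + 2 < n ∧ T.Deg (κ i) (κ (i + 1)) (κ (i + 2)) ((y (i + 1))⁻¹ * y (i + 2))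

/-- vertices of the coset graph -/
abbrev V : Type := Σ k : Fin 3, Γ ⧸ T.B k

/-- the vertex of type `k` through `g` -/
def vert (k : Fin 3) (g : Γ) : T.V := ⟨k, QuotientGroup.mk g⟩

lemma vert_eq_iff {k : Fin 3} {g g' : Γ} : T.vert k g = T.vert k g' ↔ g⁻¹ * g' ∈ T.B k := by
  simp only [vert, Sigma.mk.injEq, heq_eq_eq, true_and]
  exact QuotientGroup.eq

/-- two cosets meet -/
def R (v w : T.V) : Prop := ∃ g, v = T.vert v.1 g ∧ w = T.vert w.1 g

lemma R_refl (v : T.V) : T.R v v := by
  obtain ⟨k, x⟩ := v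
  induction x using QuotientGroup.induction_on with
  | H g => exact ⟨g, rfl, rfl⟩

lemma R_symm (v w : T.V) (h : T.R v w) : T.R w v := let ⟨g, h1, h2⟩ := h; ⟨g, h2, h1⟩

lemma R_eq (v w : T.V) (h : T.R v w) (hc : v.1 = w.1) : v = w := by
  obtain ⟨g, h1, h2⟩ := h
  rw [h1, h2, hc]

lemma R_vert (k l : Fin 3) (g : Γ) : T.R (T.vert k g) (T.vert l g) := ⟨g, rfl, rfl⟩

/-- the coset graph -/
def graph : SimpleGraph T.V where
  Adj v w := v.1 ≠ w.1 ∧ T.R v w
  symm := ⟨fun _ _ ⟨h, h'⟩ => ⟨h.symm, T.R_symm _ _ h'⟩⟩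
  loopless := ⟨fun _ h => h.1 rfl⟩

variable {T}

lemma Acyc.short {N : ℕ} (h : T.Acyc N) : Short T.R N := by
  intro m z hm hN hz hl
  by_cases hκ : ∃ i, i < m ∧ (z i).1 = (z (i + 1)).1
  · obtain ⟨i, hi, he⟩ := hκ
    have h1 := T.R_eq _ _ (hz i hi) he
    rcases i with _ | i
    · exact ⟨0, hm, h1 ▸ hz 1 (by omega)⟩
    · exact ⟨i, by omega, h1 ▸ hz i (by omega)⟩
  have hY : ∀ p q, T.R p q → ∃ g, p = T.vert p.1 g ∧ q = T.vert q.1 g := fun _ _ h => h
  choose! Y hY1 hY2 using hY
  let y : ℕ → Γ := fun i => if i = 0 ∨ i = m + 1 then Y (z m) (z 0) else Y (z (i - 1)) (z i)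
  have hy1 : ∀ i, i ≤ m → z i = T.vert (z i).1 (y i) := by
    intro i hi
    rcases i with _ | i
    · simpa [y] using hY2 _ _ hl
    · simpa [y, show i ≠ m by omega] using hY2 _ _ (hz i (by omega))
  have hy2 : ∀ i, i ≤ m → z i = T.vert (z i).1 (y (i + 1)) := by
    intro i hi
    by_cases h1 : i = m
    · subst h1
      simpa [y] using hY1 _ _ hl
    · simpa [y, h1] using hY1 _ _ (hz i (by omega))
  obtain ⟨i, hi, a, ha, b, hb, hab⟩ := h (m + 1) (fun i => (z i).1) y (by omega) hN
    (fun i hi he => hκ ⟨i, by omega, he⟩)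
    (fun i hi => T.vert_eq_iff.1 ((hy1 i (by omega)).symm.trans (hy2 i (by omega))))
    (by simp [y])
  have n1 : (z i).1 ≠ (z (i + 1)).1 := fun he => hκ ⟨i, by omega, he⟩
  have n2 : (z (i + 1)).1 ≠ (z (i + 2)).1 := fun he => hκ ⟨i + 1, by omega, he⟩
  refine ⟨i, by omega, y (i + 1) * a, ?_, ?_⟩
  · refine (hy2 i (by omega)).trans (T.vert_eq_iff.2 ?_)
    rw [inv_mul_cancel_left]
    exact T.le _ _ (third_ne_left n1) ha
  · refine (hy1 (i + 2) (by omega)).trans (T.vert_eq_iff.2 ?_)
    have : (y (i + 2))⁻¹ * (y (i + 1) * a) = b⁻¹ := by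
      rw [← mul_assoc, ← inv_inv ((y (i + 2))⁻¹ * y (i + 1)), mul_inv_rev (y (i + 2))⁻¹, inv_inv,
        hab]
      group
    rw [this]
    exact inv_mem (T.le _ _ (third_ne_right n2) hb)

lemma Acyc.deg3 {N : ℕ} (h : T.Acyc N) (hN : 3 ≤ N) {k l m : Fin 3} (h1 : k ≠ l) (h2 : l ≠ m)
    {a u b : Γ} (ha : a ∈ T.B k) (hu : u ∈ T.B l) (hb : b ∈ T.B m) (he : a * u * b = 1) :
    T.Deg k l m u := by
  obtain ⟨i, hi, hd⟩ := h 3 (fun i => if i = 0 then k else if i = 1 then l else m)
    (fun i => if i = 1 then a else if i = 2 then a * u else 1) le_rfl hN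
    (fun i hi => by
      obtain rfl | rfl : i = 0 ∨ i = 1 := by omega
      · simpa using h1
      · simpa using h2)
    (fun i hi => by
      obtain rfl | rfl | rfl : i = 0 ∨ i = 1 ∨ i = 2 := by omega
      · simpa using ha
      · simpa using hu
      · have : (a * u)⁻¹ = b := inv_eq_of_mul_eq_one_right he
        simp only [OfNat.ofNat_ne_one, if_false, if_true, OfNat.ofNat_ne_zero, this]
        simpa using hb)
    (by simp)
  obtain rfl : i = 0 := by omega
  simpa using hd

lemma Acyc.inter {N : ℕ} (h : T.Acyc N) (hN : 3 ≤ N) {k l : Fin 3} (h1 : k ≠ l) {u : Γ}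
    (hk : u ∈ T.B k) (hl : u ∈ T.B l) : u ∈ T.A (third k l) := by
  obtain ⟨a, ha, b, hb, rfl⟩ := h.deg3 hN h1 h1.symm (one_mem _) hl (inv_mem hk) (by simp)
  exact mul_mem ha (third_comm k l ▸ hb)

/-- the last step of a nondegenerate coset path is forced -/
theorem Acyc.last {N n : ℕ} (h : T.Acyc N) (hN : 2 * n + 3 ≤ N) (κ : ℕ → Fin 3) (y y' : ℕ → Γ)
    (hκ : ∀ i, i < n + 1 → κ i ≠ κ (i + 1))
    (hy : ∀ i, i < n + 1 → (y i)⁻¹ * y (i + 1) ∈ T.B (κ i))
    (hy' : ∀ i, i < n + 1 → (y' i)⁻¹ * y' (i + 1) ∈ T.B (κ i))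
    (hd : ∀ i, i + 2 ≤ n + 1 → ¬ T.Deg (κ i) (κ (i + 1)) (κ (i + 2)) ((y (i + 1))⁻¹ * y (i + 2)))
    (h0 : y' 0 = y 0) (hl : (y (n + 1))⁻¹ * y' (n + 1) ∈ T.B (κ (n + 1))) :
    (y (n + 1))⁻¹ * y' (n + 1) ∈ T.A (third (κ n) (κ (n + 1))) := by
  have hw := (walk_unique T.R_refl T.R_symm (fun v => v.1) T.R_eq h.short _ (n + 1) (n + 1)
    (fun i => T.vert (κ i) (y i)) (fun i => T.vert (κ i) (y' i)) id le_rfl (by omega)
    (fun i hi => ⟨⟨y (i + 1), T.vert_eq_iff.2 (hy i hi), rfl⟩,
      fun he => hκ i hi (congrArg Sigma.fst he)⟩)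
    (fun i hi ⟨g, h1, h2⟩ => hd i hi (h.deg3 (by omega) (hκ i (by omega)) (hκ (i + 1) (by omega))
      (a := g⁻¹ * y (i + 1)) (b := (y (i + 2))⁻¹ * g)
      (T.vert_eq_iff.1 (h1.symm.trans (T.vert_eq_iff.2 (hy i (by omega))))) (hy (i + 1) (by omega))
      (T.vert_eq_iff.1 h2) (by group)))
    (fun i hi => ⟨y' (i + 1), T.vert_eq_iff.2 (hy' i hi), rfl⟩) (by simp only [h0])
    (T.vert_eq_iff.2 hl).symm (fun j _ => Nat.lt_succ_self j) le_rfl (fun _ _ => rfl)).2 n
    (by omega)
  refine h.inter (by omega) (hκ n (by omega)) (T.vert_eq_iff.1 ?_) hl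
  exact (T.vert_eq_iff.2 (hy n (by omega))).symm.trans
    (hw.symm.trans (T.vert_eq_iff.2 (hy' n (by omega))))

lemma Acyc.loc {N : ℕ} (h : T.Acyc (N + 1)) : Loc N T.V T.graph := by
  refine ⟨?_, fun n h4 hn => no_indCycle_of_short T.graph (R := T.R) (fun _ _ h => h.2)
    (fun v w h => ?_) h.short h4 (by omega)⟩
  · have : T.graph.Colorable 3 := ⟨Coloring.mk (fun v => v.1) fun h => h.1⟩
    exact this.cliqueFree (by norm_num)
  · by_cases hc : v.1 = w.1
    · exact Or.inl (T.R_eq _ _ h hc)
    · exact Or.inr ⟨hc, h⟩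

lemma le_commonNeighbors [Finite Γ] {ι : Type} (a : Fin 3 → ι → Γ) (ha : ∀ l i, a l i ∈ T.A l)
    (hinj : ∀ l i j, (a l i)⁻¹ * a l j ∈ T.B l → i = j) (v w : T.V) (h : T.graph.Adj v w) :
    Nat.card ι ≤ (T.graph.commonNeighbors v w).ncard := by
  obtain ⟨hne, g, hv, hw⟩ := h
  rw [← Set.ncard_univ]
  refine Set.ncard_le_ncard_of_injOn
    (fun i => T.vert (third v.1 w.1) (g * a (third v.1 w.1) i)) ?_ ?_ (Set.toFinite _)
  · intro i _
    rw [mem_commonNeighbors]
    refine ⟨⟨(third_ne_left hne).symm, g * a (third v.1 w.1) i, hv.trans (T.vert_eq_iff.2 ?_), rfl⟩,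
      ⟨(third_ne_right hne).symm, g * a (third v.1 w.1) i, hw.trans (T.vert_eq_iff.2 ?_), rfl⟩⟩
    · rw [inv_mul_cancel_left]; exact T.le _ _ (third_ne_left hne) (ha _ _)
    · rw [inv_mul_cancel_left]; exact T.le _ _ (third_ne_right hne) (ha _ _)
  · intro i _ j _ hij
    have := T.vert_eq_iff.1 hij
    rw [mul_inv_rev, mul_assoc, inv_mul_cancel_left] at this
    exact hinj _ _ _ this

lemma ec_pos [Finite Γ] : 0 < ec T.graph :=
  (Set.ncard_pos (Set.toFinite _)).2
    ⟨s(T.vert 0 1, T.vert 1 1), (show (0 : Fin 3) ≠ 1 by decide), T.R_vert _ _ _⟩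

lemma ec_le [Finite Γ] : ec T.graph ≤ 9 * Nat.card Γ := by
  have : 9 * Nat.card Γ = (Set.univ : Set (Fin 3 × Fin 3 × Γ)).ncard := by
    simp [Set.ncard_univ]; ring
  rw [this]
  refine (Set.ncard_le_ncard (t := (fun p : Fin 3 × Fin 3 × Γ =>
    s(T.vert p.1 p.2.2, T.vert p.2.1 p.2.2)) '' Set.univ) ?_ (Set.toFinite _)).trans
    (Set.ncard_image_le (Set.toFinite _))
  intro e he
  induction e using Sym2.ind with
  | h v w =>
    obtain ⟨_, g, h1, h2⟩ := he
    exact ⟨(v.1, w.1, g), Set.mem_univ _, by simp only [← h1, ← h2]⟩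

end Tri

end Pool.Agent.P.MP_80f86c_co.Poly
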